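import Mathlib
import Pool.Agent.H852.QP.Main

set_option autoImplicit false

/-!
# Expected dimension for all classes outside a quasi-polynomially thin wedge

For `r ≥ 5 ^ 168` very general points of the complex projective plane and EVERY class
`(d; m 1, …, m r)` in one of the following three ranges, `dim |D| = edim D`. Put
`ε = exp (-(log r) ^ 2 / 31)`.

* `√r d ≤ (1 - ε) ∑ m i`;
* `√r d < ∑ m i ≤ exp ((log r) ^ 2 / 92)`;
* `√r (m i + 1) ≤ (1 - ε) d` for all `i`.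
-/

namespace Pool.Agent.Results.MP_6e81d8_ag.EveryClassQuasiPolynomial

open MvPolynomial

/-- Forms of degree `d` vanishing to order at least `m i` at the points `(1 : P i 0 : P i 1)`. -/
noncomputable def forms {r : ℕ} (P : Fin r → Fin 2 → ℂ) (d : ℕ) (m : Fin r → ℕ) :
    Submodule ℂ (MvPolynomial (Fin 3) ℂ) :=
  homogeneousSubmodule (Fin 3) ℂ d ⊓
    Submodule.restrictScalars ℂ
      (⨅ i : Fin r, (Ideal.span {X 1 - C (P i 0) * X 0, X 2 - C (P i 1) * X 0} :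
        Ideal (MvPolynomial (Fin 3) ℂ)) ^ (m i))

theorem result (r : ℕ) (hr : 5 ^ 168 ≤ r) :
    ∃ F : ℕ → MvPolynomial (Fin r × Fin 2) ℂ, (∀ j, F j ≠ 0) ∧
      ∀ P : Fin r → Fin 2 → ℂ,
        (∀ j, MvPolynomial.eval (fun ij : Fin r × Fin 2 => P ij.1 ij.2) (F j) ≠ 0) →
        ∀ (d : ℕ) (m : Fin r → ℕ),
          (Real.sqrt r * d ≤ (1 - Real.exp (-(Real.log r ^ 2 / 31))) * ∑ i, (m i : ℝ) ∨
            (Real.sqrt r * d < ∑ i, (m i : ℝ) ∧
              ∑ i, (m i : ℝ) ≤ Real.exp (Real.log r ^ 2 / 92)) ∨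
            ∀ i, Real.sqrt r * (m i + 1) ≤ (1 - Real.exp (-(Real.log r ^ 2 / 31))) * d) →
          (Module.finrank ℂ ↥(forms P d m) : ℤ) - 1 =
            max (((d + 2).choose 2 : ℤ) - 1 - ∑ i, ((m i + 1).choose 2 : ℤ)) (-1) := by
  obtain ⟨F, hF, hF'⟩ := Pool.Agent.H852.QP.exists_family (Fin r × Fin 2)
  refine ⟨F, hF, fun P hP d m hd => ?_⟩
  have h1 := Pool.Agent.H852.QP.finrank_win hr (hF' _ hP) (w := m) (d := d) hd
  rw [Pool.Agent.H852.QP.Vd_plane] at h1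
  unfold forms
  rw [h1]
  have e : ∑ i, ((m i + 1).choose 2 : ℤ) = ((∑ i, (m i + 1).choose 2 : ℕ) : ℤ) := by
    push_cast
    rfl
  rw [e]
  omega

end Pool.Agent.Results.MP_6e81d8_ag.EveryClassQuasiPolynomial
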